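import Pool.Agent.Y31.GG.Rat2

set_option autoImplicit false

/-!
# Identity theorem outside discs with real centres
-/

namespace Pool.Agent.Y31.GG

open Filter Topology Set PowerSeries

/-- the complement of the closed discs of radius `R` around the points of `Γ` -/
def An (Γ : Finset ℕ) (R : ℝ) : Set ℂ := {t | ∀ g ∈ Γ, R < ‖t - (g : ℂ)‖}

theorem isOpen_An (Γ : Finset ℕ) (R : ℝ) : IsOpen (An Γ R) := by
  have h : An Γ R = ⋂ g ∈ Γ, {t : ℂ | R < ‖t - (g : ℂ)‖} := by
    ext t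
    simp [An]
  rw [h]
  apply isOpen_biInter_finset
  intro g _
  exact isOpen_lt continuous_const (continuous_id.sub continuous_const).norm

/-- the vertical ray from `t` away from the real axis -/
noncomputable def ray (t : ℂ) (s : ℝ) : ℂ :=
  t + ((s * (if 0 ≤ t.im then 1 else -1) : ℝ) : ℂ) * Complex.I

theorem ray_zero (t : ℂ) : ray t 0 = t := by
  simp [ray]

theorem continuous_ray (t : ℂ) : Continuous (ray t) := by
  unfold ray
  fun_prop

theorem norm_ray_sub (t : ℂ) (s : ℝ) (hs : 0 ≤ s) (g : ℕ) :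
    ‖t - (g : ℂ)‖ ≤ ‖ray t s - (g : ℂ)‖ := by
  rw [Complex.norm_eq_sqrt_sq_add_sq, Complex.norm_eq_sqrt_sq_add_sq]
  apply Real.sqrt_le_sqrt
  have h1 : (ray t s - (g : ℂ)).re = (t - (g : ℂ)).re := by simp [ray]
  have h2 : (ray t s - (g : ℂ)).im = t.im + s * (if 0 ≤ t.im then 1 else -1) := by simp [ray]
  have h3 : (t - (g : ℂ)).im = t.im := by simp
  rw [h1, h2, h3]
  split_ifs with h
  · nlinarith
  · nlinarith

theorem ray_mem {Γ : Finset ℕ} {R : ℝ} {t : ℂ} (ht : t ∈ An Γ R) {s : ℝ} (hs : 0 ≤ s) :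
    ray t s ∈ An Γ R := fun g hg => (ht g hg).trans_le (norm_ray_sub t s hs g)

theorem norm_ray (t : ℂ) (s : ℝ) (hs : 0 ≤ s) : s - ‖t‖ ≤ ‖ray t s‖ := by
  have h1 : ‖((s * (if 0 ≤ t.im then 1 else -1) : ℝ) : ℂ) * Complex.I‖ = s := by
    rw [norm_mul, Complex.norm_I, mul_one, Complex.norm_real, norm_mul, Real.norm_of_nonneg hs]
    split_ifs <;> simp
  have h2 : ((s * (if 0 ≤ t.im then 1 else -1) : ℝ) : ℂ) * Complex.I = ray t s - t := by
    simp [ray]
  rw [h2] at h1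
  have := norm_sub_le (ray t s) t
  linarith

theorem isPreconnected_ray (t : ℂ) : IsPreconnected (ray t '' Ici 0) :=
  isPreconnected_Ici.image _ (continuous_ray t).continuousOn

/-- identity theorem -/
theorem ident {Γ : Finset ℕ} {R : ℝ} {F G : ℂ → ℂ} (hF : ∀ t ∈ An Γ R, AnalyticAt ℂ F t)
    (hG : ∀ t ∈ An Γ R, AnalyticAt ℂ G t) {L : ℝ} (hFG : ∀ t : ℂ, L < ‖t‖ → F t = G t) :
    ∀ t ∈ An Γ R, F t = G t := by
  intro t ht
  have hsub : ray t '' Ici 0 ⊆ An Γ R := by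
    rintro _ ⟨s, hs, rfl⟩
    exact ray_mem ht hs
  have h0 : (0 : ℝ) ≤ |L| + ‖t‖ + 1 := by positivity
  have hfar : L < ‖ray t (|L| + ‖t‖ + 1)‖ := by
    have := norm_ray t _ h0
    linarith [le_abs_self L]
  have ho : IsOpen {z : ℂ | L < ‖z‖} := isOpen_lt continuous_const continuous_norm
  have hev : F =ᶠ[𝓝 (ray t (|L| + ‖t‖ + 1))] G := by
    filter_upwards [ho.mem_nhds hfar] with z hz
    exact hFG z hz
  have := AnalyticOnNhd.eqOn_of_preconnected_of_eventuallyEq (fun z hz => hF z (hsub hz))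
    (fun z hz => hG z (hsub hz)) (isPreconnected_ray t) ⟨_, h0, rfl⟩ hev
  exact this ⟨0, self_mem_Ici, ray_zero t⟩

/-- a function with nonzero expansion at infinity is nowhere locally zero -/
theorem nonzero {Γ : Finset ℕ} {R : ℝ} {F : ℂ → ℂ} (hF : ∀ t ∈ An Γ R, AnalyticAt ℂ F t)
    {L : ℝ} {c : ℕ → ℂ} (hs : ∀ t : ℂ, L < ‖t‖ → HasSum (fun m : ℕ => c m * (1 / t) ^ m) (F t))
    (hc : c ≠ 0) : ∀ t ∈ An Γ R, ∀ᶠ z in 𝓝[≠] t, F z ≠ 0 := by
  intro t ht
  rcases (hF t ht).eventually_eq_zero_or_eventually_ne_zero with h | h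
  · exfalso
    apply hc
    obtain ⟨β, hβ, hβF⟩ := ana c L F hs
    apply zero_of_freq c β hβ
    have hsub : ray t '' Ici 0 ⊆ An Γ R := by
      rintro _ ⟨s, hs, rfl⟩
      exact ray_mem ht hs
    have hz : EqOn F 0 (ray t '' Ici 0) :=
      AnalyticOnNhd.eqOn_zero_of_preconnected_of_eventuallyEq_zero
        (fun z hz => hF z (hsub hz)) (isPreconnected_ray t) ⟨0, self_mem_Ici, ray_zero t⟩ h
    have hn : Tendsto (fun s : ℝ => ‖ray t s‖) atTop atTop := by
      have h1 : Tendsto (fun s : ℝ => s - ‖t‖) atTop atTop :=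
        tendsto_atTop_add_const_right _ _ tendsto_id
      refine tendsto_atTop_mono' _ ?_ h1
      filter_upwards [eventually_ge_atTop 0] with s hs
      exact norm_ray t s hs
    have h2 : Tendsto (fun s : ℝ => (ray t s)⁻¹) atTop (𝓝[≠] 0) := by
      rw [tendsto_nhdsWithin_iff]
      constructor
      · exact tendsto_inv₀_cobounded.comp (tendsto_norm_atTop_iff_cobounded.mp hn)
      · filter_upwards [hn.eventually (eventually_gt_atTop 0)] with s hs
        exact inv_ne_zero (norm_pos_iff.mp hs)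
    have h3 : ∀ᶠ s : ℝ in atTop, β (ray t s)⁻¹ = 0 := by
      filter_upwards [hn.eventually (eventually_gt_atTop L), eventually_ge_atTop 0] with s hs1 hs2
      rw [hβF _ hs1]
      exact hz ⟨s, hs2, rfl⟩
    exact h2.frequently h3.frequently
  · exact h

end Pool.Agent.Y31.GG
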