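import Pool.Agent.Y113.GG.Defs
import Pool.Agent.Y31.GG.Rat3

set_option autoImplicit false

/-!
# Meromorphic functions outside two disjoint families of discs (for MP_f11a48_ag)
-/

namespace Pool.Agent.Y31.GG

open Filter Topology Set PowerSeries

/-- descent of a polynomial relation from `ℂ` to `ℚ` -/
theorem descent (P Q : Polynomial ℂ) (a b : ℚ⟦X⟧) (hQ : Q ≠ 0)
    (h : (Q : ℂ⟦X⟧) * a.map (algebraMap ℚ ℂ) = (P : ℂ⟦X⟧) * b.map (algebraMap ℚ ℂ)) :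
    ∃ p q : Polynomial ℚ, q ≠ 0 ∧ (q : ℚ⟦X⟧) * a = (p : ℚ⟦X⟧) * b := by
  obtain ⟨k, hk⟩ : ∃ k, Q.coeff k ≠ 0 := by
    by_contra hcon
    push Not at hcon
    exact hQ (Polynomial.ext (by simpa using hcon))
  obtain ⟨lam, hlam⟩ : ∃ lam : Module.Dual ℚ ℂ, lam (Q.coeff k) ≠ 0 := by
    by_contra hcon
    push Not at hcon
    exact hk ((Module.forall_dual_apply_eq_zero_iff ℚ _).mp hcon)
  have key : ∀ (S : Polynomial ℂ), ∃ s : Polynomial ℚ, ∀ i, s.coeff i = lam (S.coeff i) := by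
    intro S
    refine ⟨∑ i ∈ Finset.range (S.natDegree + 1), Polynomial.monomial i (lam (S.coeff i)), ?_⟩
    intro i
    rw [Polynomial.finsetSum_coeff]
    simp only [Polynomial.coeff_monomial]
    rw [Finset.sum_ite_eq' (Finset.range (S.natDegree + 1)) i]
    split_ifs with hi
    · rfl
    · rw [Polynomial.coeff_eq_zero_of_natDegree_lt (by simpa using hi), map_zero]
  obtain ⟨q, hq⟩ := key Q
  obtain ⟨p, hp⟩ := key P
  have key2 : ∀ (S : Polynomial ℂ) (s : Polynomial ℚ) (f : ℚ⟦X⟧),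
      (∀ i, s.coeff i = lam (S.coeff i)) → ∀ n, coeff n ((s : ℚ⟦X⟧) * f) =
        lam (coeff n ((S : ℂ⟦X⟧) * f.map (algebraMap ℚ ℂ))) := by
    intro S s f hs n
    rw [coeff_mul, coeff_mul, map_sum]
    apply Finset.sum_congr rfl
    intro x _
    rw [Polynomial.coeff_coe, Polynomial.coeff_coe, coeff_map, hs, mul_comm (S.coeff x.1),
      ← Algebra.smul_def, map_smul, smul_eq_mul, mul_comm]
  refine ⟨p, q, ?_, ?_⟩
  · intro h0
    apply hlam
    rw [← hq, h0, Polynomial.coeff_zero]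
  · ext n
    rw [key2 Q q a hq, key2 P p b hp, h]

theorem t_rat : Pool.Agent.Y113.GG.T_rat := by
  classical
  intro Γ₁ Γ₂ R a₁ b₁ a₂ b₂ hR hdist ha₁ hb₁ ha₂ hb₂ hb₁0 hb₂0 hab
  by_cases ha₂0 : a₂ = 0
  · exact ⟨0, 1, one_ne_zero, by rw [ha₂0]; simp⟩
  have ha₁0 : a₁ ≠ 0 := by
    intro h
    rw [h, zero_mul] at hab
    exact (mul_ne_zero ha₂0 hb₁0) hab.symm
  obtain ⟨A₁, hA₁, LA₁, sA₁⟩ := ha₁
  obtain ⟨B₁, hB₁, LB₁, sB₁⟩ := hb₁
  obtain ⟨A₂, hA₂, LA₂, sA₂⟩ := ha₂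
  obtain ⟨B₂, hB₂, LB₂, sB₂⟩ := hb₂
  set L : ℝ := max (max LA₁ LB₁) (max LA₂ LB₂) with hL
  have l1 : LA₁ ≤ L := (le_max_left _ _).trans (le_max_left _ _)
  have l2 : LB₁ ≤ L := (le_max_right _ _).trans (le_max_left _ _)
  have l3 : LA₂ ≤ L := (le_max_left _ _).trans (le_max_right _ _)
  have l4 : LB₂ ≤ L := (le_max_right _ _).trans (le_max_right _ _)
  -- the coefficients
  have hc : ∀ f : ℚ⟦X⟧, f ≠ 0 → (fun m : ℕ => ((coeff m f : ℚ) : ℂ)) ≠ 0 := by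
    intro f hf h
    apply hf
    ext m
    have := congrFun h m
    simpa using this
  have hmap : ∀ (f : ℚ⟦X⟧) (m : ℕ), coeff m (f.map (algebraMap ℚ ℂ)) = ((coeff m f : ℚ) : ℂ) := by
    intro f m
    rw [coeff_map]
    rfl
  -- the relation near infinity
  have hrel : ∀ t : ℂ, L < ‖t‖ → A₁ t * B₂ t = A₂ t * B₁ t := by
    intro t ht
    have h1 := sA₁ t (l1.trans_lt ht)
    have h2 := sB₂ t (l4.trans_lt ht)
    have h3 := sA₂ t (l3.trans_lt ht)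
    have h4 := sB₁ t (l2.trans_lt ht)
    simp only [← hmap] at h1 h2 h3 h4
    have h5 := mulSum _ _ _ _ _ h1 h2
    have h6 := mulSum _ _ _ _ _ h3 h4
    rw [← map_mul, hab, map_mul] at h5
    exact h5.unique h6
  have hun : ∀ t : ℂ, t ∈ An (Γ₁ ∪ Γ₂) R ↔ t ∈ An Γ₁ R ∧ t ∈ An Γ₂ R := by
    intro t
    constructor
    · intro h
      exact ⟨fun g hg => h g (Finset.mem_union_left _ hg),
        fun g hg => h g (Finset.mem_union_right _ hg)⟩
    · rintro ⟨h1, h2⟩ g hg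
      rcases Finset.mem_union.mp hg with h | h
      · exact h1 g h
      · exact h2 g h
  have hrel2 : ∀ t : ℂ, t ∈ An Γ₁ R → t ∈ An Γ₂ R → A₁ t * B₂ t = A₂ t * B₁ t := by
    intro t h1 h2
    refine ident (Γ := Γ₁ ∪ Γ₂) (R := R) (F := fun t => A₁ t * B₂ t) (G := fun t => A₂ t * B₁ t)
      ?_ ?_ hrel t ((hun t).mpr ⟨h1, h2⟩)
    · intro z hz
      exact (hA₁ z ((hun z).mp hz).1).fun_mul (hB₂ z ((hun z).mp hz).2)
    · intro z hz
      exact (hA₂ z ((hun z).mp hz).2).fun_mul (hB₁ z ((hun z).mp hz).1)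
  have hcover : ∀ t : ℂ, t ∉ An Γ₂ R → t ∈ An Γ₁ R := by
    intro t ht g hg
    have : ∃ h ∈ Γ₂, ‖t - (h : ℂ)‖ ≤ R := by
      by_contra hcon
      push Not at hcon
      exact ht hcon
    obtain ⟨h, hh, hth⟩ := this
    have h1 := hdist g hg h hh
    have h2 : |(g : ℝ) - h| = ‖(g : ℂ) - (h : ℂ)‖ := by
      rw [← Real.norm_eq_abs, ← Complex.norm_real]
      push_cast
      rfl
    have h3 : ‖(g : ℂ) - (h : ℂ)‖ ≤ ‖t - (h : ℂ)‖ + ‖t - (g : ℂ)‖ := by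
      have : (g : ℂ) - h = (t - h) - (t - g) := by ring
      rw [this]
      exact norm_sub_le _ _
    linarith
  have nA₁ := nonzero hA₁ sA₁ (hc a₁ ha₁0)
  have nB₁ := nonzero hB₁ sB₁ (hc b₁ hb₁0)
  have nA₂ := nonzero hA₂ sA₂ (hc a₂ ha₂0)
  have nB₂ := nonzero hB₂ sB₂ (hc b₂ hb₂0)
  -- the meromorphic function
  set h : ℂ → ℂ := fun t => if t ∈ An Γ₁ R ∧ B₁ t ≠ 0 then A₁ t / B₁ t else A₂ t / B₂ t with hh
  have h1 : ∀ t : ℂ, t ∈ An Γ₁ R → B₁ t ≠ 0 → h t = A₁ t / B₁ t := by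
    intro t ht1 ht2
    rw [hh]
    simp only
    rw [if_pos ⟨ht1, ht2⟩]
  have h2 : ∀ t : ℂ, t ∈ An Γ₂ R → B₂ t ≠ 0 → h t = A₂ t / B₂ t := by
    intro t ht1 ht2
    rw [hh]
    simp only
    split_ifs with h3
    · rw [div_eq_div_iff h3.2 ht2]
      exact hrel2 t h3.1 ht1
    · rfl
  have e1 : ∀ t ∈ An Γ₁ R, ∀ᶠ z in 𝓝[≠] t, h z = A₁ z / B₁ z := by
    intro t ht
    filter_upwards [nB₁ t ht, eventually_nhdsWithin_of_eventually_nhds
      ((isOpen_An Γ₁ R).mem_nhds ht)] with z hz1 hz2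
    exact h1 z hz2 hz1
  have e2 : ∀ t ∈ An Γ₂ R, ∀ᶠ z in 𝓝[≠] t, h z = A₂ z / B₂ z := by
    intro t ht
    filter_upwards [nB₂ t ht, eventually_nhdsWithin_of_eventually_nhds
      ((isOpen_An Γ₂ R).mem_nhds ht)] with z hz1 hz2
    exact h2 z hz2 hz1
  have hm : ∀ t, MeromorphicAt h t := by
    intro t
    by_cases ht : t ∈ An Γ₂ R
    · exact (((hA₂ t ht).meromorphicAt).fun_div ((hB₂ t ht).meromorphicAt)).congr
        ((e2 t ht).mono fun z hz => hz.symm)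
    · have ht1 := hcover t ht
      exact (((hA₁ t ht1).meromorphicAt).fun_div ((hB₁ t ht1).meromorphicAt)).congr
        ((e1 t ht1).mono fun z hz => hz.symm)
  have hne : ∀ t, meromorphicOrderAt h t ≠ ⊤ := by
    intro t
    rw [meromorphicOrderAt_ne_top_iff_eventually_ne_zero (hm t)]
    by_cases ht : t ∈ An Γ₂ R
    · filter_upwards [e2 t ht, nA₂ t ht, nB₂ t ht] with z hz1 hz2 hz3
      rw [hz1]
      exact div_ne_zero hz2 hz3
    · have ht1 := hcover t ht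
      filter_upwards [e1 t ht1, nA₁ t ht1, nB₁ t ht1] with z hz1 hz2 hz3
      rw [hz1]
      exact div_ne_zero hz2 hz3
  -- infinity
  obtain ⟨α, hα, hαA⟩ := ana _ LA₂ A₂ sA₂
  obtain ⟨β, hβ, hβB⟩ := ana _ LB₂ B₂ sB₂
  have hnear : ∀ M : ℝ, ∀ᶠ z in 𝓝[≠] (0 : ℂ), M < ‖z⁻¹‖ := by
    intro M
    have h1 := tendsto_norm_cobounded_atTop.comp tendsto_inv_ne
    exact h1.eventually (eventually_gt_atTop M)
  have hfar : ∃ M : ℝ, ∀ t : ℂ, M < ‖t‖ → t ∈ An Γ₂ R := by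
    refine ⟨R + ∑ g ∈ Γ₂, (g : ℝ), fun t ht g hg => ?_⟩
    have h3 : (g : ℝ) ≤ ∑ g ∈ Γ₂, (g : ℝ) :=
      Finset.single_le_sum (f := fun g : ℕ => (g : ℝ)) (fun i _ => Nat.cast_nonneg i) hg
    have h4 : ‖t‖ ≤ ‖t - (g : ℂ)‖ + ‖(g : ℂ)‖ := by
      have : t = (t - g) + g := by ring
      calc ‖t‖ = ‖(t - g) + g‖ := by rw [← this]
        _ ≤ _ := norm_add_le _ _
    have h5 : ‖(g : ℂ)‖ = (g : ℝ) := by simp
    linarith
  obtain ⟨M, hM⟩ := hfar
  have hβ0 : ∀ᶠ z in 𝓝[≠] (0 : ℂ), β z ≠ 0 := by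
    rcases hβ.analyticAt.eventually_eq_zero_or_eventually_ne_zero with h3 | h3
    · exfalso
      apply hc b₂ hb₂0
      apply zero_of_freq _ β hβ
      have h4 : ∀ᶠ z in 𝓝[≠] (0 : ℂ), β z = 0 := eventually_nhdsWithin_of_eventually_nhds h3
      exact h4.frequently
    · exact h3
  have einf : ∀ᶠ z in 𝓝[≠] (0 : ℂ), h z⁻¹ = α z / β z := by
    filter_upwards [hβ0, hnear M, hnear LA₂, hnear LB₂] with z hz1 hz2 hz3 hz4
    have h3 := hαA z⁻¹ hz3
    have h4 := hβB z⁻¹ hz4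
    rw [inv_inv] at h3 h4
    rw [h2 z⁻¹ (hM _ hz2) (by rw [← h4]; exact hz1), h3, h4]
  have hinf : MeromorphicAt (fun z => h z⁻¹) 0 :=
    (hα.analyticAt.meromorphicAt.fun_div hβ.analyticAt.meromorphicAt).congr
      (einf.mono fun z hz => hz.symm)
  obtain ⟨P, Q, hQ, hPQ⟩ := rational_of_mero hm hne hinf
  -- back to power series
  set e : ℕ := max P.natDegree Q.natDegree with he
  have hrefl : ∀ (S : Polynomial ℂ), S.natDegree ≤ e → ∀ z : ℂ, z ≠ 0 →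
      (S.reflect e).eval z = z ^ e * S.eval z⁻¹ := by
    intro S hS z hz
    let _ : Invertible (z⁻¹) := invertibleOfNonzero (inv_ne_zero hz)
    have h3 := Polynomial.eval₂_reflect_mul_pow (RingHom.id ℂ) z⁻¹ e S hS
    rw [invOf_eq_inv, inv_inv, Polynomial.eval₂_id, Polynomial.eval₂_id] at h3
    rw [← h3, inv_pow]
    field_simp
  refine descent (P.reflect e) (Q.reflect e) a₂ b₂ ?_ ?_
  · intro h0
    exact hQ (Polynomial.reflect_eq_zero_iff.mp h0)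
  · rw [← sub_eq_zero]
    set F : ℂ⟦X⟧ := ((Q.reflect e : Polynomial ℂ) : ℂ⟦X⟧) * a₂.map (algebraMap ℚ ℂ) -
      ((P.reflect e : Polynomial ℂ) : ℂ⟦X⟧) * b₂.map (algebraMap ℚ ℂ) with hF
    have hsum : ∀ t : ℂ, L < ‖t‖ → HasSum (fun m : ℕ => coeff m F * (1 / t) ^ m)
        ((Q.reflect e).eval (1 / t) * A₂ t - (P.reflect e).eval (1 / t) * B₂ t) := by
      intro t ht
      have h3 := sA₂ t (l3.trans_lt ht)
      have h4 := sB₂ t (l4.trans_lt ht)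
      simp only [← hmap] at h3 h4
      have h5 := mulSum _ _ _ _ _ (polySum (Q.reflect e) (1 / t)) h3
      have h6 := mulSum _ _ _ _ _ (polySum (P.reflect e) (1 / t)) h4
      refine (h5.sub h6).congr_fun ?_
      intro m
      rw [hF, map_sub, sub_mul]
    obtain ⟨γ, hγ, hγF⟩ := ana _ L _ hsum
    have h0 : (fun m : ℕ => coeff m F) = 0 := by
      apply zero_of_freq _ γ hγ
      have h3 : ∀ᶠ z in 𝓝[≠] (0 : ℂ), γ z = 0 := by
        filter_upwards [einf, hPQ, hβ0, hnear L, hnear LA₂, hnear LB₂, self_mem_nhdsWithin] with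
          z hz1 hz2 hz3 hz4 hz5 hz6 hz7
        have hz7 : z ≠ 0 := hz7
        have h3 := hαA z⁻¹ hz5
        have h4 := hβB z⁻¹ hz6
        have h5 := hγF z⁻¹ hz4
        rw [inv_inv] at h3 h4 h5
        rw [h5, ← h3, ← h4, one_div, inv_inv, hrefl Q (le_max_right _ _) z hz7,
          hrefl P (le_max_left _ _) z hz7, ← hz2, hz1]
        field_simp
        ring
      exact h3.frequently
    ext m
    have := congrFun h0 m
    simpa using this

end Pool.Agent.Y31.GG
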