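import Mathlib

set_option autoImplicit false

/-!
# Meromorphic functions on the plane and at infinity are rational
-/

namespace Pool.Agent.Y31.GG

open Filter Topology Set MeromorphicOn

theorem poly_of_growth (n : ℕ) : ∀ (g : ℂ → ℂ), Differentiable ℂ g →
    (∃ C L : ℝ, ∀ t, L < ‖t‖ → ‖g t‖ ≤ C * ‖t‖ ^ n) →
    ∃ G : Polynomial ℂ, ∀ t, g t = G.eval t := by
  induction n with
  | zero =>
    rintro g hg ⟨C, L, h⟩
    obtain ⟨B, hB⟩ := (isCompact_closedBall (0 : ℂ) L).exists_bound_of_continuousOn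
      hg.continuous.continuousOn
    have hbd : Bornology.IsBounded (Set.range g) := by
      rw [isBounded_iff_forall_norm_le]
      refine ⟨max B C, ?_⟩
      rintro _ ⟨t, rfl⟩
      by_cases ht : L < ‖t‖
      · exact (by simpa using h t ht : ‖g t‖ ≤ C).trans (le_max_right _ _)
      · exact (hB t (by simpa using not_lt.mp ht)).trans (le_max_left _ _)
    refine ⟨Polynomial.C (g 0), fun t => ?_⟩
    rw [Polynomial.eval_C]
    exact hg.apply_eq_apply_of_bounded hbd t 0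
  | succ n ih =>
    rintro g hg ⟨C, L, h⟩
    have hk : Differentiable ℂ (dslope g 0) := by
      rw [← differentiableOn_univ, Complex.differentiableOn_dslope univ_mem, differentiableOn_univ]
      exact hg
    have hds : ∀ t, t * dslope g 0 t = g t - g 0 := by
      intro t
      have := sub_smul_dslope g 0 t
      simpa using this
    obtain ⟨K, hK⟩ := ih (dslope g 0) hk ⟨|C| + ‖g 0‖, max L 1, by
      intro t ht
      have h1 : L < ‖t‖ := (le_max_left _ _).trans_lt ht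
      have h2 : 1 < ‖t‖ := (le_max_right _ _).trans_lt ht
      have h3 := h t h1
      have h4 : ‖t‖ * ‖dslope g 0 t‖ ≤ ‖t‖ * ((|C| + ‖g 0‖) * ‖t‖ ^ n) := by
        rw [← norm_mul, hds]
        calc ‖g t - g 0‖ ≤ ‖g t‖ + ‖g 0‖ := norm_sub_le _ _
          _ ≤ C * ‖t‖ ^ (n + 1) + ‖g 0‖ := by linarith
          _ ≤ |C| * ‖t‖ ^ (n + 1) + ‖g 0‖ * ‖t‖ ^ (n + 1) := by
            have h5 : 1 ≤ ‖t‖ ^ (n + 1) := one_le_pow₀ h2.le
            have h6 : C * ‖t‖ ^ (n + 1) ≤ |C| * ‖t‖ ^ (n + 1) :=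
              mul_le_mul_of_nonneg_right (le_abs_self C) (by positivity)
            have h7 : ‖g 0‖ ≤ ‖g 0‖ * ‖t‖ ^ (n + 1) := le_mul_of_one_le_right (norm_nonneg _) h5
            linarith
          _ = ‖t‖ * ((|C| + ‖g 0‖) * ‖t‖ ^ n) := by ring
      exact le_of_mul_le_mul_left h4 (by linarith)⟩
    refine ⟨Polynomial.C (g 0) + Polynomial.X * K, fun t => ?_⟩
    rw [Polynomial.eval_add, Polynomial.eval_C, Polynomial.eval_mul, Polynomial.eval_X, ← hK, hds]
    ring

theorem poly_of_mero {g : ℂ → ℂ} (hg : Differentiable ℂ g)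
    (h : MeromorphicAt (fun z => g z⁻¹) 0) : ∃ G : Polynomial ℂ, ∀ t, g t = G.eval t := by
  obtain ⟨n, hn⟩ := h
  -- bounded near zero
  have hc := hn.continuousAt
  have hb : ∀ᶠ z in 𝓝 (0 : ℂ), ‖(z - 0) ^ n • g z⁻¹‖ < ‖((0 : ℂ) - 0) ^ n • g (0 : ℂ)⁻¹‖ + 1 :=
    hc.norm.eventually (gt_mem_nhds (lt_add_one _))
  set C := ‖((0 : ℂ) - 0) ^ n • g (0 : ℂ)⁻¹‖ + 1 with hC
  rw [Metric.eventually_nhds_iff] at hb
  obtain ⟨ε, hε, hb⟩ := hb
  apply poly_of_growth n g hg
  refine ⟨C, ε⁻¹, fun t ht => ?_⟩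
  have ht0 : 0 < ‖t‖ := (inv_pos.mpr hε).trans ht
  have ht1 : t ≠ 0 := norm_pos_iff.mp ht0
  have h1 := @hb t⁻¹ (by
    rw [dist_zero_right, norm_inv]
    exact inv_lt_of_inv_lt₀ hε ht)
  rw [inv_inv, sub_zero, smul_eq_mul, norm_mul, norm_pow, norm_inv, inv_pow] at h1
  have h2 : 0 < ‖t‖ ^ n := pow_pos ht0 n
  rw [inv_mul_lt_iff₀ h2] at h1
  linarith [mul_comm (‖t‖ ^ n) C]

theorem tendsto_inv_ne : Tendsto (fun z : ℂ => z⁻¹) (𝓝[≠] 0) (Bornology.cobounded ℂ) :=
  tendsto_inv₀_nhdsNE_zero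

/-- a meromorphic function on the plane and at infinity is rational -/
theorem rational_of_mero {h : ℂ → ℂ} (hm : ∀ t, MeromorphicAt h t)
    (hne : ∀ t, meromorphicOrderAt h t ≠ ⊤) (hinf : MeromorphicAt (fun z => h z⁻¹) 0) :
    ∃ P Q : Polynomial ℂ, Q ≠ 0 ∧ ∀ᶠ z in 𝓝[≠] (0 : ℂ), Q.eval z⁻¹ * h z⁻¹ = P.eval z⁻¹ := by
  classical
  -- outside of a disc `h` is analytic and nonzero
  have hana : ∀ᶠ z in 𝓝[≠] (0 : ℂ), AnalyticAt ℂ h z⁻¹ := by
    filter_upwards [hinf.eventually_analyticAt, self_mem_nhdsWithin] with z hz hz0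
    have hz0 : z ≠ 0 := hz0
    have h1 : AnalyticAt ℂ (fun w : ℂ => w⁻¹) z⁻¹ := analyticAt_inv (inv_ne_zero hz0)
    have h2 : AnalyticAt ℂ ((fun z => h z⁻¹) ∘ (fun w : ℂ => w⁻¹)) z⁻¹ := by
      apply AnalyticAt.comp _ h1
      simpa using hz
    have h3 : ((fun z => h z⁻¹) ∘ (fun w : ℂ => w⁻¹)) = h := by
      funext w
      simp
    rwa [h3] at h2
  have hnz : ∀ᶠ z in 𝓝[≠] (0 : ℂ), h z⁻¹ ≠ 0 := by
    rcases hinf.eventually_eq_zero_or_eventually_ne_zero with h1 | h1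
    · exfalso
      rw [eventually_nhdsWithin_iff, Metric.eventually_nhds_iff] at h1
      obtain ⟨ε, hε, h1⟩ := h1
      -- the point `t0 = 2 / ε`
      have h2 : ∀ᶠ t in 𝓝[≠] ((2 / ε : ℝ) : ℂ), h t = 0 := by
        have ho : IsOpen {t : ℂ | ε⁻¹ < ‖t‖} := isOpen_lt continuous_const continuous_norm
        have hmem : ((2 / ε : ℝ) : ℂ) ∈ {t : ℂ | ε⁻¹ < ‖t‖} := by
          rw [mem_ofPred_eq, Complex.norm_real, Real.norm_of_nonneg (by positivity), inv_eq_one_div]
          exact div_lt_div_of_pos_right (by norm_num) hε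
        filter_upwards [eventually_nhdsWithin_of_eventually_nhds (ho.mem_nhds hmem)] with t ht
        have ht : ε⁻¹ < ‖t‖ := ht
        have ht0 : 0 < ‖t‖ := (inv_pos.mpr hε).trans ht
        have h3 := @h1 t⁻¹ (by
          rw [dist_zero_right, norm_inv]
          exact inv_lt_of_inv_lt₀ hε ht) (by
          simpa using norm_pos_iff.mp ht0)
        rwa [inv_inv] at h3
      exact hne _ (meromorphicOrderAt_eq_top_iff.mpr h2)
    · exact h1
  obtain ⟨L, hLpos, hL⟩ : ∃ L : ℝ, 0 < L ∧ ∀ t : ℂ, L < ‖t‖ → AnalyticAt ℂ h t ∧ h t ≠ 0 := by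
    have h1 := hana.and hnz
    rw [eventually_nhdsWithin_iff, Metric.eventually_nhds_iff] at h1
    obtain ⟨ε, hε, h1⟩ := h1
    refine ⟨ε⁻¹, inv_pos.mpr hε, fun t ht => ?_⟩
    have ht0 : 0 < ‖t‖ := (inv_pos.mpr hε).trans ht
    have h3 := @h1 t⁻¹ (by
      rw [dist_zero_right, norm_inv]
      exact inv_lt_of_inv_lt₀ hε ht) (by
      simpa using norm_pos_iff.mp ht0)
    rwa [inv_inv] at h3
  have hmo : MeromorphicOn h univ := fun t _ => hm t
  have hfin : (divisor h univ).support.Finite := by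
    have h1 : (divisor h univ).support ⊆ Metric.closedBall 0 L := by
      intro t ht
      by_contra hcon
      apply ht
      have h2 : L < ‖t‖ := by simpa using hcon
      rw [divisor_apply hmo (mem_univ t), (hL t h2).1.meromorphicOrderAt_eq]
      rw [(hL t h2).1.analyticOrderAt_eq_zero.mpr (hL t h2).2]
      rfl
    have h2 : LocallyFiniteSupport (divisor h univ : ℂ → ℤ) :=
      Function.locallyFinsupp.locallyFiniteSupport (divisor h univ)
    have h3 := h2.finite_inter_support_of_isCompact (isCompact_closedBall (0 : ℂ) L)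
    rwa [Set.inter_eq_right.mpr h1] at h3
  have hord : ∀ u : (univ : Set ℂ), meromorphicOrderAt h u.1 ≠ ⊤ := fun u => hne u.1
  obtain ⟨g, hg, -, hge⟩ := MeromorphicOn.extract_zeros_poles hmo hord hfin
  have hgd : Differentiable ℂ g := fun z => (hg z (mem_univ z)).differentiableAt
  set D : ℂ → ℤ := fun u => divisor h univ u with hD
  set T : Finset ℂ := hfin.toFinset with hT
  have hprod : ∀ z, (∏ᶠ u, (fun w : ℂ => w - u) ^ divisor h univ u) z
      = ∏ u ∈ T, (z - u) ^ D u := by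
    intro z
    rw [finprod_eq_prod_of_mulSupport_subset (s := T)]
    · simp [D]
    · rw [Function.FactorizedRational.mulSupport]
      intro u hu
      simp only [hT, Finite.coe_toFinset]
      exact hu
  have hTL : ∀ u ∈ T, ‖u‖ ≤ L := by
    intro u hu
    by_contra hcon
    have h2 : L < ‖u‖ := not_le.mp hcon
    rw [hT, Finite.mem_toFinset, Function.mem_support] at hu
    apply hu
    rw [divisor_apply hmo (mem_univ u), (hL u h2).1.meromorphicOrderAt_eq]
    rw [(hL u h2).1.analyticOrderAt_eq_zero.mpr (hL u h2).2]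
    rfl
  have hsub : ∀ z : ℂ, L < ‖z‖ → ∀ u ∈ T, z - u ≠ 0 := by
    intro z hz u hu h0
    have := hTL u hu
    rw [← sub_eq_zero.mp h0] at this
    linarith
  have hval : ∀ z : ℂ, L < ‖z‖ → h z = (∏ u ∈ T, (z - u) ^ D u) * g z := by
    intro z hz
    have hRan : AnalyticAt ℂ (fun z => ∏ u ∈ T, (z - u) ^ D u) z := by
      apply Finset.analyticAt_fun_prod
      intro u hu
      exact (analyticAt_id.fun_sub analyticAt_const).fun_zpow (hsub z hz u hu)
    have hcont : ContinuousAt (fun z => h z - (∏ u ∈ T, (z - u) ^ D u) * g z) z :=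
      ((hL z hz).1.continuousAt).sub (hRan.continuousAt.mul hgd.continuous.continuousAt)
    have hev : ∀ᶠ w in 𝓝[≠] z, h w - (∏ u ∈ T, (w - u) ^ D u) * g w = 0 := by
      have h3 := (mem_codiscreteWithin_iff_forall_mem_nhdsNE.1 hge) z (mem_univ _)
      filter_upwards [h3] with w hw
      rcases hw with hw | hw
      · have hw : h w = ((∏ᶠ u, (fun w : ℂ => w - u) ^ divisor h univ u) • g) w := hw
        rw [hw, Pi.smul_apply', hprod, smul_eq_mul, sub_self]
      · exact absurd (mem_univ w) hw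
    have t1 := hcont.tendsto.mono_left (nhdsWithin_le_nhds (s := {z}ᶜ))
    have t2 : Tendsto (fun w => h w - (∏ u ∈ T, (w - u) ^ D u) * g w) (𝓝[≠] z) (𝓝 0) :=
      tendsto_const_nhds.congr' (by
        filter_upwards [hev] with w hw
        exact hw.symm)
    exact sub_eq_zero.mp (tendsto_nhds_unique t1 t2)
  have hnear : ∀ᶠ z in 𝓝[≠] (0 : ℂ), L < ‖z⁻¹‖ := by
    have h1 := tendsto_norm_cobounded_atTop.comp tendsto_inv_ne
    exact h1.eventually (eventually_gt_atTop L)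
  have hprodm : MeromorphicAt (fun z : ℂ => ∏ u ∈ T, (z⁻¹ - u) ^ D u) 0 := by
    apply MeromorphicAt.fun_prod
    intro u _
    apply MeromorphicAt.fun_zpow
    exact ((MeromorphicAt.id 0).fun_inv).fun_sub (MeromorphicAt.const u 0)
  have hgm : MeromorphicAt (fun z => g z⁻¹) 0 := by
    have h1 : MeromorphicAt (fun z => h z⁻¹ * (∏ u ∈ T, (z⁻¹ - u) ^ D u)⁻¹) 0 :=
      hinf.fun_mul hprodm.fun_inv
    refine h1.congr ?_
    filter_upwards [hnear] with z hz
    rw [hval z⁻¹ hz]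
    have h2 : ∏ u ∈ T, (z⁻¹ - u) ^ D u ≠ 0 :=
      Finset.prod_ne_zero_iff.mpr fun u hu => zpow_ne_zero _ (hsub _ hz u hu)
    rw [mul_assoc, mul_comm (g z⁻¹), ← mul_assoc, mul_inv_cancel₀ h2, one_mul]
  obtain ⟨G, hG⟩ := poly_of_mero hgd hgm
  refine ⟨G * ∏ u ∈ T, (Polynomial.X - Polynomial.C u) ^ (D u).toNat,
    ∏ u ∈ T, (Polynomial.X - Polynomial.C u) ^ (-D u).toNat, ?_, ?_⟩
  · exact Finset.prod_ne_zero_iff.mpr fun u _ => pow_ne_zero _ (Polynomial.X_sub_C_ne_zero u)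
  · filter_upwards [hnear] with z hz
    rw [hval z⁻¹ hz, Polynomial.eval_mul, Polynomial.eval_prod, Polynomial.eval_prod, ← hG,
      ← mul_assoc, mul_comm (g z⁻¹)]
    congr 1
    rw [← Finset.prod_mul_distrib]
    apply Finset.prod_congr rfl
    intro u hu
    have hne0 := hsub _ hz u hu
    simp only [Polynomial.eval_pow, Polynomial.eval_sub, Polynomial.eval_X, Polynomial.eval_C]
    rw [← zpow_natCast, ← zpow_natCast, ← zpow_add₀ hne0]
    congr 1
    omega

end Pool.Agent.Y31.GG
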