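import Pool.Agent.Y31.GG.Rat1

set_option autoImplicit false

/-!
# Power series in `1 / t`
-/

namespace Pool.Agent.Y31.GG

open Filter Topology Set PowerSeries

/-- the sum of a power series in `1 / t` is analytic at infinity -/
theorem ana (c : ℕ → ℂ) (L : ℝ) (φ : ℂ → ℂ)
    (h : ∀ t : ℂ, L < ‖t‖ → HasSum (fun m : ℕ => c m * (1 / t) ^ m) (φ t)) :
    ∃ β : ℂ → ℂ, HasFPowerSeriesAt β (FormalMultilinearSeries.ofScalars ℂ c) 0 ∧
      ∀ t : ℂ, L < ‖t‖ → β t⁻¹ = φ t := by
  refine ⟨(FormalMultilinearSeries.ofScalars ℂ c).sum, ?_, ?_⟩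
  · have hr : 0 < (FormalMultilinearSeries.ofScalars ℂ c).radius := by
      set r : NNReal := (Real.toNNReal (|L| + 1))⁻¹ with hr
      have hr0 : 0 < r := inv_pos.mpr (Real.toNNReal_pos.mpr (by positivity))
      have hrv : (r : ℝ) = (|L| + 1)⁻¹ := by
        rw [hr, NNReal.coe_inv, Real.coe_toNNReal _ (by positivity)]
      have h1 := h ((|L| + 1 : ℝ) : ℂ) (by
        rw [Complex.norm_real, Real.norm_of_nonneg (by positivity)]
        linarith [le_abs_self L])
      have h2 : Tendsto (fun m => ‖FormalMultilinearSeries.ofScalars ℂ c m‖ * (r : ℝ) ^ m) atTop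
          (𝓝 0) := by
        have h3 := h1.summable.tendsto_atTop_zero.norm
        rw [norm_zero] at h3
        refine h3.congr ?_
        intro m
        rw [FormalMultilinearSeries.ofScalars_norm, norm_mul, norm_pow, norm_div, norm_one,
          Complex.norm_real, Real.norm_of_nonneg (by positivity), hrv, one_div]
      exact lt_of_lt_of_le (by exact_mod_cast hr0)
        (FormalMultilinearSeries.le_radius_of_tendsto _ h2)
    exact (FormalMultilinearSeries.hasFPowerSeriesOnBall _ hr).hasFPowerSeriesAt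
  · intro t ht
    have h1 := (h t ht).tsum_eq
    rw [← h1]
    unfold FormalMultilinearSeries.sum
    apply tsum_congr
    intro m
    rw [FormalMultilinearSeries.ofScalars_apply_eq, smul_eq_mul, one_div]

theorem zero_of_freq (c : ℕ → ℂ) (β : ℂ → ℂ)
    (h : HasFPowerSeriesAt β (FormalMultilinearSeries.ofScalars ℂ c) 0)
    (hz : ∃ᶠ z in 𝓝[≠] (0 : ℂ), β z = 0) : c = 0 := by
  have h1 : ∀ᶠ z in 𝓝 (0 : ℂ), β z = 0 :=
    h.analyticAt.frequently_zero_iff_eventually_zero.mp hz
  have h2 := h.eq_zero_of_eventually h1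
  exact (FormalMultilinearSeries.ofScalars_series_eq_zero ℂ).mp h2

theorem mulSum (f g : ℂ⟦X⟧) (z x y : ℂ) (hf : HasSum (fun m => coeff m f * z ^ m) x)
    (hg : HasSum (fun m => coeff m g * z ^ m) y) :
    HasSum (fun m => coeff m (f * g) * z ^ m) (x * y) := by
  have h1 : Summable (fun m => ‖coeff m f * z ^ m‖) := summable_norm_iff.mpr hf.summable
  have h2 : Summable (fun m => ‖coeff m g * z ^ m‖) := summable_norm_iff.mpr hg.summable
  have h3 := (summable_norm_sum_mul_antidiagonal_of_summable_norm h1 h2).of_norm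
  have h4 := tsum_mul_tsum_eq_tsum_sum_antidiagonal_of_summable_norm h1 h2
  rw [hf.tsum_eq, hg.tsum_eq] at h4
  have h5 := h3.hasSum
  rw [← h4] at h5
  refine h5.congr_fun ?_
  intro m
  rw [coeff_mul, Finset.sum_mul]
  apply Finset.sum_congr rfl
  intro p hp
  rw [← Finset.HasAntidiagonal.mem_antidiagonal.mp hp, pow_add]
  ring

theorem polySum (p : Polynomial ℂ) (z : ℂ) :
    HasSum (fun m => coeff m (p : ℂ⟦X⟧) * z ^ m) (p.eval z) := by
  rw [Polynomial.eval_eq_sum_range]
  simp only [Polynomial.coeff_coe]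
  apply hasSum_sum_of_ne_finset_zero
  intro m hm
  rw [Polynomial.coeff_eq_zero_of_natDegree_lt (by simpa using hm), zero_mul]

end Pool.Agent.Y31.GG
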